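import Mathlib
import Pool.Agent.H324R3.Hole

set_option autoImplicit false

/-!
# A hole in the spectrum of minimal defining set sizes

The 28 three-element subsets of a 7-point set which are not lines of a Fano plane form a simple
2-(7,3,4) design. It has minimal defining sets of sizes 7 and 13, but none of size 12.
-/

namespace Pool.Agent.Results.MP_13ec72_co.FanoHole

open Finset Pool.Agent.H324R3.Hole

/-- `B` is the block set of a simple `t-(v,k,lam)` design on the point set `Fin v`: all blocks are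
`k`-subsets, and every `t`-subset of the points lies in exactly `lam` blocks. -/
def IsDesign (t v k lam : ℕ) (B : Finset (Finset (Fin v))) : Prop :=
  (∀ b ∈ B, b.card = k) ∧
    ∀ T : Finset (Fin v), T.card = t → (B.filter (fun b => T ⊆ b)).card = lam

/-- `S` is a defining set of the `t-(v,k,lam)` design `D`: it consists of blocks of `D`, and `D` is
the only simple `t-(v,k,lam)` design on the same points whose block set contains `S`. -/
def IsDefining (t v k lam : ℕ) (D S : Finset (Finset (Fin v))) : Prop :=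
  S ⊆ D ∧ ∀ B : Finset (Finset (Fin v)), IsDesign t v k lam B → S ⊆ B → B = D

/-- `S` is a minimal defining set of `D`: no proper subset of `S` is a defining set of `D`. -/
def IsMinimalDefining (t v k lam : ℕ) (D S : Finset (Finset (Fin v))) : Prop :=
  IsDefining t v k lam D S ∧
    ∀ S' : Finset (Finset (Fin v)), S' ⊂ S → ¬ IsDefining t v k lam D S'

/-- the spectrum of `D`: the set of the sizes of its minimal defining sets -/
def Spec (t v k lam : ℕ) (D : Finset (Finset (Fin v))) : Set ℕ :=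
  {n | ∃ S : Finset (Finset (Fin v)), IsMinimalDefining t v k lam D S ∧ S.card = n}

/-- the lines `{x, x+1, x+3}` (mod 7) of the Fano plane -/
def fanoLines : Finset (Finset (Fin 7)) :=
  Finset.univ.image (fun x : Fin 7 => ({x, x + 1, x + 3} : Finset (Fin 7)))

/-- the 3-subsets of `Fin 7` that are not lines of the Fano plane -/
def nonLines : Finset (Finset (Fin 7)) :=
  Finset.powersetCard 3 (Finset.univ : Finset (Fin 7)) \ fanoLines

/-- the family of the triples whose bit in `f` is zero -/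
def Dm (f : ℕ) : Finset (Finset (Fin 7)) :=
  (Finset.univ.filter (fun i : Fin 35 => f.testBit i.val = false)).image tr

theorem mem_Dm (f : ℕ) (i : Fin 35) : tr i ∈ Dm f ↔ f.testBit i.val = false := by
  rw [Dm, Finset.mem_image]
  constructor
  · rintro ⟨j, hj, h⟩
    rw [← tr_inj j i h]
    exact (Finset.mem_filter.1 hj).2
  · intro h
    exact ⟨i, by simp [h], rfl⟩

theorem card3 {f : ℕ} {b : Finset (Fin 7)} (hb : b ∈ Dm f) : b.card = 3 := by
  rw [Dm, Finset.mem_image] at hb
  obtain ⟨i, -, rfl⟩ := hb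
  exact tr_card i

theorem exists_tr {s : Finset (Fin 7)} (hs : s.card = 3) : ∃ i, tr i = s :=
  tr_surj s (by rw [Finset.mem_powersetCard]; exact ⟨Finset.subset_univ _, hs⟩)

/-- two families of triples agree if they contain the same `tr i` -/
theorem eq_of_tr {A B : Finset (Finset (Fin 7))} (hA : ∀ b ∈ A, b.card = 3)
    (hB : ∀ b ∈ B, b.card = 3) (h : ∀ i, tr i ∈ A ↔ tr i ∈ B) : A = B := by
  ext s
  constructor
  · intro hs
    obtain ⟨i, rfl⟩ := exists_tr (hA s hs)
    exact (h i).1 hs
  · intro hs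
    obtain ⟨i, rfl⟩ := exists_tr (hB s hs)
    exact (h i).2 hs

theorem nonLines_eq : nonLines = Dm F0 := by
  refine eq_of_tr ?_ (fun b hb => card3 hb) ?_
  · intro b hb
    rw [nonLines, Finset.mem_sdiff, Finset.mem_powersetCard] at hb
    exact hb.1.2
  · intro i
    rw [mem_Dm, nonLines, Finset.mem_sdiff, Finset.mem_powersetCard]
    have h : ∀ i : Fin 35, (tr i ∉ fanoLines ↔ F0.testBit i.val = false) := by decide +kernel
    rw [← h i]
    simp [tr_card i]

theorem filter_card (B : Finset (Finset (Fin 7))) (hB : ∀ b ∈ B, b.card = 3)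
    (T : Finset (Fin 7)) :
    (B.filter (fun b => T ⊆ b)).card =
      (Finset.univ.filter (fun i : Fin 35 => T ⊆ tr i ∧ tr i ∈ B)).card := by
  symm
  refine Finset.card_bij (fun i _ => tr i) ?_ ?_ ?_
  · intro i hi
    have := (Finset.mem_filter.1 hi).2
    exact Finset.mem_filter.2 ⟨this.2, this.1⟩
  · intro i _ j _ h
    exact tr_inj i j h
  · intro b hb
    have := Finset.mem_filter.1 hb
    obtain ⟨i, rfl⟩ := exists_tr (hB b this.1)
    exact ⟨i, by simp [this.1, this.2], rfl⟩

theorem filter_add (B : Finset (Finset (Fin 7))) (T : Finset (Fin 7)) (hT : T.card = 2) :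
    (Finset.univ.filter (fun i : Fin 35 => T ⊆ tr i ∧ tr i ∈ B)).card +
      (Finset.univ.filter (fun i : Fin 35 => T ⊆ tr i ∧ tr i ∉ B)).card = 5 := by
  rw [← pair_five T (by rw [Finset.mem_powersetCard]; exact ⟨Finset.subset_univ _, hT⟩)]
  rw [← Finset.card_filter_add_card_filter_not (s := Finset.univ.filter (fun i : Fin 35 => T ⊆ tr i))
    (fun i => tr i ∈ B)]
  rw [Finset.filter_filter, Finset.filter_filter]

/-- the complements of the 30 Fano planes are designs -/
theorem Dm_design : ∀ f ∈ F0 :: E, IsDesign 2 7 3 4 (Dm f) := by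
  intro f hf
  refine ⟨fun b hb => card3 hb, ?_⟩
  intro T hT
  rw [filter_card _ (fun b hb => card3 hb)]
  have h : ∀ f ∈ F0 :: E, ∀ T ∈ Finset.powersetCard 2 (Finset.univ : Finset (Fin 7)),
      (Finset.univ.filter (fun i : Fin 35 => T ⊆ tr i ∧ f.testBit i.val = false)).card = 4 := by
    decide +kernel
  have h2 := h f hf T (by rw [Finset.mem_powersetCard]; exact ⟨Finset.subset_univ _, hT⟩)
  rw [← h2]
  congr 1
  ext i
  simp only [Finset.mem_filter, Finset.mem_univ, true_and, mem_Dm]

/-- every simple 2-(7,3,4) design is the complement of a Fano plane -/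
theorem design_mem (B : Finset (Finset (Fin 7))) (hB : IsDesign 2 7 3 4 B) :
    ∃ f ∈ F0 :: E, B = Dm f := by
  let χ : ℕ → Bool := fun n => if h : n < 35 then decide (tr ⟨n, h⟩ ∉ B) else false
  have hχ : ∀ i : Fin 35, (χ i.val = true ↔ tr i ∉ B) := by
    intro i
    simp only [χ, dif_pos i.isLt, decide_eq_true_eq]
  obtain ⟨f, hf, h⟩ := classify χ (by
    intro l hl
    obtain ⟨T, hT, hTl⟩ := P_spec l hl
    have hT2 : T.card = 2 := (Finset.mem_powersetCard.1 hT).2
    have h1 := filter_add B T hT2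
    rw [← filter_card B hB.1 T, hB.2 T hT2] at h1
    have h2 : (Finset.univ.filter (fun i : Fin 35 => T ⊆ tr i ∧ tr i ∉ B)).card = 1 := by omega
    obtain ⟨i, hi⟩ := Finset.card_eq_one.1 h2
    have hi1 : i ∈ Finset.univ.filter (fun i : Fin 35 => T ⊆ tr i ∧ tr i ∉ B) := by
      rw [hi]; exact Finset.mem_singleton_self i
    have hi2 := (Finset.mem_filter.1 hi1).2
    refine ⟨i.val, (hTl i).1 hi2.1, (hχ i).2 hi2.2, ?_⟩
    intro j hj hχj
    have hj35 : j < 35 := P_lt l hl j hj
    have h3 : (⟨j, hj35⟩ : Fin 35) ∈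
        Finset.univ.filter (fun i : Fin 35 => T ⊆ tr i ∧ tr i ∉ B) := by
      rw [Finset.mem_filter]
      exact ⟨Finset.mem_univ _, (hTl ⟨j, hj35⟩).2 hj, (hχ ⟨j, hj35⟩).1 hχj⟩
    rw [hi, Finset.mem_singleton] at h3
    rw [← h3])
  refine ⟨f, hf, eq_of_tr hB.1 (fun b hb => card3 hb) ?_⟩
  intro i
  rw [mem_Dm, h i]
  have := hχ i
  constructor
  · intro h1
    by_contra h2
    exact (this.1 (by simpa using h2)) h1
  · intro h1
    by_contra h2
    rw [this.2 h2] at h1
    exact absurd h1 (by simp)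

theorem distinct : ∀ f ∈ E, Dm f ≠ Dm F0 := by
  have h : ∀ f ∈ E, ∃ i : Fin 35, f.testBit i.val = true ∧ F0.testBit i.val = false := by
    decide +kernel
  intro f hf he
  obtain ⟨i, h1, h2⟩ := h f hf
  rw [← mem_Dm F0 i, ← he, mem_Dm, h1] at h2
  exact absurd h2 (by simp)

/-- defining sets are the transversals of the other Fano planes -/
theorem defining_iff (S : Finset (Finset (Fin 7))) :
    IsDefining 2 7 3 4 nonLines S ↔
      S ⊆ nonLines ∧ ∀ f ∈ E, ∃ i : Fin 35, tr i ∈ S ∧ f.testBit i.val = true := by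
  constructor
  · rintro ⟨h1, h2⟩
    refine ⟨h1, ?_⟩
    intro f hf
    by_contra hc
    push Not at hc
    refine distinct f hf ?_
    rw [← nonLines_eq]
    refine h2 (Dm f) (Dm_design f (List.mem_cons_of_mem _ hf)) ?_
    intro s hs
    have h3 := h1 hs
    rw [nonLines_eq] at h3
    obtain ⟨i, rfl⟩ := exists_tr (card3 h3)
    rw [mem_Dm]
    simpa using hc i hs
  · rintro ⟨h1, h2⟩
    refine ⟨h1, ?_⟩
    intro B hB hS
    obtain ⟨f, hf, rfl⟩ := design_mem B hB
    rcases List.mem_cons.1 hf with h3 | h3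
    · rw [h3, nonLines_eq]
    · exfalso
      obtain ⟨i, h4, h5⟩ := h2 f h3
      have h6 := hS h4
      rw [mem_Dm, h5] at h6
      exact absurd h6 (by simp)

theorem not_twelve : 12 ∉ Spec 2 7 3 4 nonLines := by
  rintro ⟨S, ⟨hS, hmin⟩, hcard⟩
  have h1 := (defining_iff S).1 hS
  have hT3 : ∀ s ∈ S, s.card = 3 := by
    intro s hs
    have := h1.1 hs
    rw [nonLines_eq] at this
    exact card3 this
  refine no_twelve (Finset.univ.filter (fun i : Fin 35 => tr i ∈ S)) ⟨?_, ?_, ?_⟩ ?_
  · intro f hf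
    obtain ⟨i, h2, h3⟩ := h1.2 f hf
    exact ⟨i, by simp [h2], h3⟩
  · intro i hi
    have hiS : tr i ∈ S := (Finset.mem_filter.1 hi).2
    have h2 := hmin (S.erase (tr i)) (Finset.erase_ssubset hiS)
    rw [defining_iff] at h2
    push Not at h2
    obtain ⟨f, hf, h3⟩ := h2 ((Finset.erase_subset _ _).trans h1.1)
    have h4 : ∀ j ∈ Finset.univ.filter (fun i : Fin 35 => tr i ∈ S),
        f.testBit j.val = true → j = i := by
      intro j hj h5
      by_contra h6
      refine h3 j ?_ h5
      rw [Finset.mem_erase]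
      exact ⟨fun h7 => h6 (tr_inj _ _ h7), (Finset.mem_filter.1 hj).2⟩
    refine ⟨f, hf, ?_, h4⟩
    obtain ⟨j, h5, h6⟩ := h1.2 f hf
    have h7 := h4 j (by simp [h5]) h6
    rw [← h7]
    exact h6
  · rw [← hcard]
    refine Finset.card_bij (fun i _ => tr i) ?_ ?_ ?_
    · intro i hi
      exact (Finset.mem_filter.1 hi).2
    · intro i _ j _ h
      exact tr_inj i j h
    · intro s hs
      obtain ⟨i, rfl⟩ := exists_tr (hT3 s hs)
      exact ⟨i, by simp [hs], rfl⟩
  · intro i hi
    have hiS : tr i ∈ S := (Finset.mem_filter.1 hi).2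
    have := h1.1 hiS
    rwa [nonLines_eq, mem_Dm] at this

/-- witnesses: minimal defining sets given by a bit mask -/
theorem mem_spec (w n : ℕ)
    (h0 : ∀ i : Fin 35, w.testBit i.val = true → F0.testBit i.val = false)
    (h1 : ∀ f ∈ E, ∃ i : Fin 35, w.testBit i.val = true ∧ f.testBit i.val = true)
    (h2 : ∀ i : Fin 35, w.testBit i.val = true → ∃ f ∈ E,
      ∀ j : Fin 35, w.testBit j.val = true → f.testBit j.val = true → j = i)
    (h3 : (Finset.univ.filter (fun i : Fin 35 => w.testBit i.val = true)).card = n) :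
    n ∈ Spec 2 7 3 4 nonLines := by
  set S : Finset (Finset (Fin 7)) :=
    (Finset.univ.filter (fun i : Fin 35 => w.testBit i.val = true)).image tr with hS
  have hmem : ∀ i : Fin 35, (tr i ∈ S ↔ w.testBit i.val = true) := by
    intro i
    rw [hS, Finset.mem_image]
    constructor
    · rintro ⟨j, hj, h⟩
      rw [← tr_inj j i h]
      exact (Finset.mem_filter.1 hj).2
    · intro h
      exact ⟨i, by simp [h], rfl⟩
  have hsub : S ⊆ nonLines := by
    intro s hs
    rw [hS, Finset.mem_image] at hs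
    obtain ⟨i, hi, rfl⟩ := hs
    rw [nonLines_eq, mem_Dm]
    exact h0 i (Finset.mem_filter.1 hi).2
  refine ⟨S, ⟨(defining_iff S).2 ⟨hsub, ?_⟩, ?_⟩, ?_⟩
  · intro f hf
    obtain ⟨i, hi, hi2⟩ := h1 f hf
    exact ⟨i, (hmem i).2 hi, hi2⟩
  · intro S' hS' hdef
    have hd := (defining_iff S').1 hdef
    obtain ⟨s, hs, hs'⟩ := Finset.exists_of_ssubset hS'
    have hs2 := hs
    rw [hS, Finset.mem_image] at hs2
    obtain ⟨i, hi, rfl⟩ := hs2
    obtain ⟨f, hf, h4⟩ := h2 i (Finset.mem_filter.1 hi).2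
    obtain ⟨j, hj, hj2⟩ := hd.2 f hf
    have := h4 j ((hmem j).1 (hS'.1 hj)) hj2
    rw [this] at hj
    exact hs' hj
  · rw [hS, Finset.card_image_of_injective _ (fun i j h => tr_inj i j h), h3]

theorem mem_seven : 7 ∈ Spec 2 7 3 4 nonLines :=
  mem_spec 131293 7 (by decide +kernel) (by decide +kernel) (by decide +kernel) (by decide +kernel)

theorem mem_thirteen : 13 ∈ Spec 2 7 3 4 nonLines :=
  mem_spec 3096496773 13 (by decide +kernel) (by decide +kernel) (by decide +kernel)
    (by decide +kernel)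

/-- There is a simple `t`-design whose spectrum has a hole: the 2-(7,3,4) design formed by the 28
non-lines of the Fano plane has minimal defining sets of sizes 7 and 13, but none of size 12. -/
theorem result :
    (IsDesign 2 7 3 4 nonLines ∧ 7 ∈ Spec 2 7 3 4 nonLines ∧ 13 ∈ Spec 2 7 3 4 nonLines ∧
      12 ∉ Spec 2 7 3 4 nonLines) ∧
    ∃ (t v k lam : ℕ) (D : Finset (Finset (Fin v))), 2 ≤ t ∧ t ≤ k ∧ k ≤ v ∧ 1 ≤ lam ∧
      IsDesign t v k lam D ∧
      ∃ a m b : ℕ, a ∈ Spec t v k lam D ∧ b ∈ Spec t v k lam D ∧ a < m ∧ m < b ∧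
        m ∉ Spec t v k lam D := by
  have hD : IsDesign 2 7 3 4 nonLines := by
    rw [nonLines_eq]
    exact Dm_design F0 List.mem_cons_self
  exact ⟨⟨hD, mem_seven, mem_thirteen, not_twelve⟩, 2, 7, 3, 4, nonLines, by norm_num, by norm_num,
    by norm_num, by norm_num, hD, 7, 12, 13, mem_seven, mem_thirteen, by norm_num, by norm_num,
    not_twelve⟩

end Pool.Agent.Results.MP_13ec72_co.FanoHole
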